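import Pool.Agent.V1176.LN.Sets

/-! Families of systems of polynomial equations: the numbers of points over all finite fields of characteristic `p`
depend only on the parameter modulo `p`. -/

set_option autoImplicit false

open Finset Filter Topology Polynomial

namespace Pool.Agent.V1176.LN

/-- The number of the solutions over the field with `p ^ (j + 1)` elements of the system `F = 0` with the parameter
`T = n`; the polynomials `F` have coefficients in `ℤ[T]`. -/
noncomputable def solutions {m : ℕ} (F : Finset (MvPolynomial (Fin m) ℤ[X])) (n : ℤ) (p : ℕ) [Fact p.Prime] (j : ℕ) : ℕ :=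
  Nat.card {x : Fin m → GaloisField p (j + 1) //
    ∀ f ∈ F, f.eval₂ (Polynomial.eval₂RingHom (Int.castRingHom (GaloisField p (j + 1))) (n : GaloisField p (j + 1))) x = 0}

theorem solutions_congr {m : ℕ} (F : Finset (MvPolynomial (Fin m) ℤ[X])) {n n' : ℤ} (p : ℕ) [Fact p.Prime]
    (h : (n : ZMod p) = (n' : ZMod p)) : solutions F n p = solutions F n' p := by
  have h1 : ∀ j : ℕ, (n : GaloisField p (j + 1)) = (n' : GaloisField p (j + 1)) := by
    intro j
    have := congrArg (algebraMap (ZMod p) (GaloisField p (j + 1))) h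
    simpa using this
  funext j
  unfold solutions
  rw [h1 j]

open Classical in
/-- the residue classes of the parameters with the sequence of the numbers of the solutions in `I p` -/
def SS {m : ℕ} (F : Finset (MvPolynomial (Fin m) ℤ[X])) (I : ℕ → Set (ℕ → ℕ)) (p : ℕ) : Set (ZMod p) :=
  {z | ∃ _ : Fact p.Prime, ∀ n : ℤ, (n : ZMod p) = z → solutions F n p ∈ I p}

theorem mem_SS {m : ℕ} (F : Finset (MvPolynomial (Fin m) ℤ[X])) (I : ℕ → Set (ℕ → ℕ)) (p : ℕ) [h : Fact p.Prime]
    (n : ℤ) : (n : ZMod p) ∈ SS F I p ↔ solutions F n p ∈ I p := by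
  constructor
  · rintro ⟨_, h1⟩
    exact h1 n rfl
  · intro h1
    refine ⟨h, fun n' hn' => ?_⟩
    rw [solutions_congr F p hn']
    exact h1

theorem countable_poly : Countable ℤ[X] := by
  rw [← Cardinal.mk_le_aleph0_iff]
  refine Polynomial.cardinalMk_le_max.trans (max_le Cardinal.mk_le_aleph0 le_rfl)

theorem countable_mv (m : ℕ) : Countable (MvPolynomial (Fin m) ℤ[X]) := by
  have h1 : Countable ℤ[X] := countable_poly
  have h2 := MvPolynomial.cardinalMk_le_max (σ := ULift.{0} (Fin m)) (R := ℤ[X])
  have h3 : Countable (MvPolynomial (ULift.{0} (Fin m)) ℤ[X]) := by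
    rw [← Cardinal.mk_le_aleph0_iff]
    refine h2.trans ?_
    refine max_le (max_le (Cardinal.mk_le_aleph0_iff.2 h1) ?_) le_rfl
    exact Cardinal.mk_le_aleph0
  exact (MvPolynomial.renameEquiv ℤ[X] (Equiv.ulift (α := Fin m)).symm).toEquiv.countable_iff.2 h3

end Pool.Agent.V1176.LN
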