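import Pool.Agent.V1176.LN.Win
import Pool.Agent.TH375.KL.Core

/-! The law for sets of residue classes. -/

set_option autoImplicit false

open Finset Filter Topology

namespace Pool.Agent.V1176.LN

open Pool.Agent.TH375.KL (dev nu Pr)

open Classical in
/-- the indicator functions of the sets `S p` -/
noncomputable def ind (S : ∀ p : ℕ, Set (ZMod p)) (p : ℕ) (z : ZMod p) : ℝ := if z ∈ S p then 1 else 0

open Classical in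
/-- the number of the primes `p ≤ x` with `n mod p ∈ S p` -/
noncomputable def cnt (S : ∀ p : ℕ, Set (ZMod p)) (n : ℤ) (x : ℕ) : ℕ :=
  ((range (x + 1)).filter (fun p : ℕ => p.Prime ∧ (n : ZMod p) ∈ S p)).card

open Classical in
/-- its expected value -/
noncomputable def mdl (S : ∀ p : ℕ, Set (ZMod p)) (x : ℕ) : ℝ :=
  ∑ p ∈ (range (x + 1)).filter Nat.Prime, (((range p).filter (fun r : ℕ => (r : ZMod p) ∈ S p)).card : ℝ) / p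

theorem ind_le (S : ∀ p : ℕ, Set (ZMod p)) (p : ℕ) (z : ZMod p) : |ind S p z| ≤ 1 := by
  unfold ind
  split_ifs <;> norm_num

theorem nu_ind (S : ∀ p : ℕ, Set (ZMod p)) (p : ℕ) :
    nu (ind S) p = (open Classical in ((range p).filter (fun r : ℕ => (r : ZMod p) ∈ S p)).card : ℝ) / p := by
  classical
  unfold nu ind
  rw [← sum_filter, sum_const, nsmul_eq_mul, mul_one]

theorem dev_ind (S : ∀ p : ℕ, Set (ZMod p)) (n : ℤ) (x : ℕ) :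
    dev (ind S) x n = (cnt S n x : ℝ) - mdl S x := by
  classical
  unfold dev
  rw [sum_sub_distrib]
  congr 1
  · unfold ind cnt Pool.Agent.TH375.KL.Pr
    rw [← sum_filter, sum_const, nsmul_eq_mul, mul_one, filter_filter]
  · unfold mdl Pool.Agent.TH375.KL.Pr
    exact sum_congr rfl fun p _ => nu_ind S p

/-- a lower bound for the means modulo `p` gives one for the model -/
theorem mdl_ge (S : ∀ p : ℕ, Set (ZMod p)) {m : ℝ}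
    (h : ∀ δ : ℝ, 0 < δ → ∀ᶠ p in atTop, Nat.Prime p → m - δ ≤ nu (ind S) p) {ε : ℝ} (hε : 0 < ε) :
    ∀ᶠ x : ℕ in atTop, (m - ε) * Nat.primeCounting x ≤ mdl S x := by
  filter_upwards [Pool.Agent.TH375.KL.cesaro (Pool.Agent.TH375.KL.nu_le (ind_le S)) (m := m)
    (δ := ε / 2) (by positivity) (h (ε / 2) (by positivity))] with x hx
  have e : m - 2 * (ε / 2) = m - ε := by ring
  rw [e] at hx
  refine hx.trans (le_of_eq ?_)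
  unfold mdl Pool.Agent.TH375.KL.Pr
  exact sum_congr rfl fun p _ => nu_ind S p

/-- `P n x` for all integers `n ≥ 1` in the windows around `α v_ν`, `ν` large, and all `x` between `n ^ (1 - s)` and
`n ^ s` -/
def InWindows (v : ℕ → ℝ) (ϑ s α : ℝ) (P : ℕ → ℕ → Prop) : Prop :=
  ∃ ν₀ : ℕ, ∀ ν : ℕ, ν₀ ≤ ν → ∀ n : ℕ, 1 ≤ n → |(n : ℝ) - α * v ν| ≤ (v ν) ^ ϑ →
    ∀ x : ℕ, (n : ℝ) ^ (1 - s) ≤ x → (x : ℝ) ≤ (n : ℝ) ^ s → P n x

theorem win_sets (S : ℕ → ∀ p : ℕ, Set (ZMod p)) {v : ℕ → ℝ} {s τ ϑ : ℝ}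
    (hpos : ∀ n, 1 ≤ v n) (hτ : 0 ≤ τ) (hv : ∀ t : ℝ, τ < t → Summable (fun n : ℕ => (v n) ^ (-t)))
    (hs0 : 0 ≤ s) (hs1 : s < 1) (hϑ : ϑ < 1) :
    ∃ E : Set ℝ, dimH E ≤ ENNReal.ofReal ((s + τ) / (1 - ϑ)) ∧ ∀ α : ℝ, 0 < α → α ∉ E →
      ∀ k : ℕ, ∀ ε : ℝ, 0 < ε → InWindows v ϑ s α (fun n x =>
        |(cnt (S k) (n : ℤ) x : ℝ) - mdl (S k) x| ≤ ε * Nat.primeCounting x) := by
  obtain ⟨E, hE, h⟩ := win (G := fun k => ind (S k)) (fun k => ind_le (S k)) hpos hτ hv hs0 hs1 hϑ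
  refine ⟨E, hE, fun α hα hαE k ε hε => ?_⟩
  obtain ⟨ν₀, h0⟩ := h α hα hαE k ε hε
  refine ⟨ν₀, fun ν hν n hn hw x hx1 hx2 => ?_⟩
  have := h0 ν hν n hn hw x hx1 hx2
  rwa [dev_ind] at this

/-- in large windows all integers are large -/
theorem window_large {v : ℕ → ℝ} {τ ϑ s α : ℝ} (hpos : ∀ n, 1 ≤ v n) (hτ : 0 ≤ τ)
    (hv : ∀ t : ℝ, τ < t → Summable (fun n : ℕ => (v n) ^ (-t))) (hs1 : s < 1) (hϑ : ϑ < 1) (hα : 0 < α)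
    {P : ℕ → Prop} (hP : ∀ᶠ x : ℕ in atTop, P x) : InWindows v ϑ s α (fun _ x => P x) := by
  obtain ⟨x₀, hx₀⟩ := eventually_atTop.1 hP
  have htv : Tendsto v atTop atTop :=
    Pool.Agent.Y854.GM.tendsto_of_expLe (fun k => lt_of_lt_of_le one_pos (hpos k)) hτ hv
  have h1s : 0 < 1 - s := by linarith
  have e1 : ∀ᶠ ν : ℕ in atTop, 2 / α ≤ (v ν) ^ (1 - ϑ) :=
    ((tendsto_rpow_atTop (by linarith)).comp htv).eventually_ge_atTop _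
  have e2 : ∀ᶠ ν : ℕ in atTop, (x₀ : ℝ) ≤ (α / 2 * v ν) ^ (1 - s) :=
    ((tendsto_rpow_atTop h1s).comp (htv.const_mul_atTop (by positivity))).eventually_ge_atTop _
  obtain ⟨ν₀, h0⟩ := eventually_atTop.1 (e1.and e2)
  refine ⟨ν₀, fun ν hν n hn hw x hx1 hx2 => hx₀ x ?_⟩
  obtain ⟨h1, h2⟩ := h0 ν hν
  have hv0 : 0 < v ν := lt_of_lt_of_le one_pos (hpos ν)
  have h8 : (v ν) ^ ϑ ≤ α / 2 * v ν := by
    have h9 : (v ν) ^ ϑ * (2 / α) ≤ v ν := by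
      calc (v ν) ^ ϑ * (2 / α) ≤ (v ν) ^ ϑ * (v ν) ^ (1 - ϑ) :=
            mul_le_mul_of_nonneg_left h1 (Real.rpow_nonneg hv0.le _)
        _ = v ν := by
            rw [← Real.rpow_add hv0]
            simp
    calc (v ν) ^ ϑ = α / 2 * ((v ν) ^ ϑ * (2 / α)) := by field_simp
      _ ≤ α / 2 * v ν := mul_le_mul_of_nonneg_left h9 (by positivity)
  have h3 : α / 2 * v ν ≤ n := by
    have h7 := (abs_le.1 hw).1
    have h10 : α / 2 * v ν + α / 2 * v ν = α * v ν := by ring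
    linarith
  have h4 : (x₀ : ℝ) ≤ x := h2.trans ((Real.rpow_le_rpow (by positivity) h3 h1s.le).trans hx1)
  exact_mod_cast h4

/-- `P n x` for all large `Y`, all integers `1 ≤ n ≤ Y` with `|n - α| ≤ Y ^ (-σ)` and all `x` between `n ^ (1 - s)` and
`n ^ s` -/
def InClasses (q : ℕ) [Fact q.Prime] (σ s : ℝ) (α : ℤ_[q]) (P : ℕ → ℕ → Prop) : Prop :=
  ∃ Y₀ : ℝ, ∀ Y : ℝ, Y₀ ≤ Y → ∀ n : ℕ, 1 ≤ n → (n : ℝ) ≤ Y → ‖(n : ℤ_[q]) - α‖ ≤ Y ^ (-σ) →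
    ∀ x : ℕ, (n : ℝ) ^ (1 - s) ≤ x → (x : ℝ) ≤ (n : ℝ) ^ s → P n x

theorem cls_sets (q : ℕ) [Fact q.Prime] (S : ℕ → ∀ p : ℕ, Set (ZMod p)) {s σ : ℝ}
    (hs0 : 0 ≤ s) (hs1 : s < 1) (hσ : 0 < σ) :
    ∃ E : Set ℤ_[q], dimH E ≤ ENNReal.ofReal (s / σ) ∧ ∀ α : ℤ_[q], α ∉ E →
      ∀ k : ℕ, ∀ ε : ℝ, 0 < ε → InClasses q σ s α (fun n x =>
        |(cnt (S k) (n : ℤ) x : ℝ) - mdl (S k) x| ≤ ε * Nat.primeCounting x) := by
  obtain ⟨E, hE, h⟩ := cls q (G := fun k => ind (S k)) (fun k => ind_le (S k)) hs0 hs1 hσ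
  refine ⟨E, hE, fun α hαE k ε hε => ?_⟩
  obtain ⟨Y₀, h0⟩ := h α hαE k ε hε
  refine ⟨Y₀, fun Y hY n hn hnY hw x hx1 hx2 => ?_⟩
  have := h0 Y hY n hn hnY hw x hx1 hx2
  rwa [dev_ind] at this

/-- if `α` is not a natural number, then the integers near `α` are large -/
theorem class_large (q : ℕ) [Fact q.Prime] {σ s : ℝ} (hσ : 0 < σ) (hs1 : s < 1) {α : ℤ_[q]}
    (hα : ∀ n : ℕ, (n : ℤ_[q]) ≠ α) {P : ℕ → Prop} (hP : ∀ᶠ x : ℕ in atTop, P x) :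
    InClasses q σ s α (fun _ x => P x) := by
  obtain ⟨x₀, hx₀⟩ := eventually_atTop.1 hP
  have h1s : 0 < 1 - s := by linarith
  have e1 : ∀ᶠ n : ℕ in atTop, (x₀ : ℝ) ≤ (n : ℝ) ^ (1 - s) :=
    ((tendsto_rpow_atTop h1s).comp tendsto_natCast_atTop_atTop).eventually_ge_atTop _
  obtain ⟨n₀, hn₀⟩ := eventually_atTop.1 e1
  have e2 : ∀ n : ℕ, ∀ᶠ Y : ℝ in atTop, Y ^ (-σ) < ‖(n : ℤ_[q]) - α‖ := by
    intro n
    have h1 : 0 < ‖(n : ℤ_[q]) - α‖ := norm_pos_iff.2 (sub_ne_zero.2 (hα n))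
    exact (tendsto_rpow_neg_atTop hσ).eventually_lt_const h1
  have e3 : ∀ᶠ Y : ℝ in atTop, ∀ n ∈ Finset.range n₀, Y ^ (-σ) < ‖(n : ℤ_[q]) - α‖ :=
    (Filter.eventually_all_finset (Finset.range n₀)).2 fun n _ => e2 n
  obtain ⟨Y₀, hY₀⟩ := eventually_atTop.1 e3
  refine ⟨Y₀, fun Y hY n hn hnY hw x hx1 hx2 => hx₀ x ?_⟩
  have h1 : n₀ ≤ n := by
    by_contra hcon
    exact absurd hw (not_le.2 (hY₀ Y hY n (Finset.mem_range.2 (not_le.1 hcon))))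
  have h4 : (x₀ : ℝ) ≤ x := (hn₀ n h1).trans hx1
  exact_mod_cast h4

end Pool.Agent.V1176.LN
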