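import Pool.Agent.V1176.LN.Ell
import Pool.Agent.V11001.KM.Family

/-! The law for rare events for all integers near the powers of almost every number. -/

set_option autoImplicit false

open Finset Filter Topology Polynomial

namespace Pool.Agent.V1176.LN

theorem near_rel (S : ℕ → ∀ p : ℕ, Set (ZMod p)) {lam : ℕ → ℝ} {κ θ : ℝ}
    (hlam : Tendsto (fun n : ℕ => lam n / Real.log n) atTop atTop)
    (hκ0 : 0 ≤ κ) (hκ1 : κ ≤ 1) (hθ : θ < 1) (B : Set ℝ) (hB : B.Countable) :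
    ∃ E : Set ℝ, dimH E ≤ ENNReal.ofReal ((1 - κ) / (1 - θ)) ∧ ∀ x : ℝ, 1 < x → x ∉ E → ∀ β ∈ B, 0 < β →
      ∀ k : ℕ, ∀ ε : ℝ, 0 < ε → {n : ℕ | 1 ≤ n ∧ (∃ m : ℕ, |(n : ℝ) - β * x ^ lam m| ≤ x ^ (θ * lam m)) ∧
        ¬ ∀ y : ℕ, y ^ 2 ≤ n → |(cnt (S k) (n : ℤ) y : ℝ) - mdl (S k) y| ≤ ε * max (mdl (S k) y) ((n : ℝ) ^ κ)}.Finite := by
  obtain ⟨E, hE, h⟩ := Pool.Agent.V11001.KM.family (T := ℕ) (J := ℕ × ℕ) (fun n : ℕ => (n : ℝ)) hlam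
    (s := 1 - κ) (by linarith) hθ B hB (fun z => RBad (S z.1) (1 / ((z.2 : ℝ) + 1)) κ) (by
      intro z η hη
      obtain ⟨C, hC⟩ := few_rel (S z.1) (ε := 1 / ((z.2 : ℝ) + 1)) (by positivity) hκ0 hκ1 hη
      refine ⟨|C|, fun X hX => ?_⟩
      have hset : {t : ℕ | t ∈ RBad (S z.1) (1 / ((z.2 : ℝ) + 1)) κ ∧ (t : ℝ) ≤ X} =
          {t : ℕ | t ∈ RBad (S z.1) (1 / ((z.2 : ℝ) + 1)) κ ∧ t ≤ ⌊X⌋₊} := by
        ext t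
        simp only [Set.mem_ofPred_eq]
        exact and_congr_right fun _ => (Nat.le_floor_iff (by linarith)).symm
      have hfl : 1 ≤ ⌊X⌋₊ := Nat.le_floor (by exact_mod_cast hX)
      rw [hset]
      refine ⟨(Set.finite_Iic ⌊X⌋₊).subset fun t ht => ht.2, ?_⟩
      refine (hC _ hfl).trans ?_
      have h1 : ((⌊X⌋₊ : ℕ) : ℝ) ≤ X := Nat.floor_le (by linarith)
      calc C * ((⌊X⌋₊ : ℕ) : ℝ) ^ (1 - κ + η) ≤ |C| * ((⌊X⌋₊ : ℕ) : ℝ) ^ (1 - κ + η) :=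
            mul_le_mul_of_nonneg_right (le_abs_self C) (by positivity)
        _ ≤ |C| * X ^ (1 - κ + η) := by
            refine mul_le_mul_of_nonneg_left ?_ (abs_nonneg C)
            exact Real.rpow_le_rpow (by positivity) h1 (by linarith))
  refine ⟨E, hE, fun x hx hxE β hβ hβ0 k ε hε => ?_⟩
  obtain ⟨j, hj⟩ := exists_nat_one_div_lt hε
  refine (h x hx hxE β hβ hβ0 (k, j)).subset ?_
  rintro n ⟨hn1, hn2, hn3⟩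
  refine ⟨⟨hn1, ?_⟩, hn2⟩
  push Not at hn3
  obtain ⟨y, hy1, hy2⟩ := hn3
  refine ⟨y, hy1, lt_of_le_of_lt ?_ hy2⟩
  exact mul_le_mul_of_nonneg_right hj.le ((mdl_nonneg _ _).trans (le_max_left _ _))

theorem ell_near {ι : Type} [Countable ι] [Nonempty ι] {H : ι → ℕ → ℤ → ℤ → Prop}
    (hH : ∀ (i : ι) (p : ℕ) (A A' B B' : ℤ), (p : ℤ) ∣ A - A' → (p : ℤ) ∣ B - B' → H i p A B → H i p A' B')
    {lam : ℕ → ℝ} {κ θ : ℝ} (hlam : Tendsto (fun n : ℕ => lam n / Real.log n) atTop atTop)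
    (hκ0 : 0 ≤ κ) (hκ1 : κ ≤ 1) (hθ : θ < 1) (B : Set ℝ) (hB : B.Countable) :
    ∃ E : Set ℝ, dimH E ≤ ENNReal.ofReal ((1 - κ) / (1 - θ)) ∧ ∀ x : ℝ, 1 < x → x ∉ E → ∀ β ∈ B, 0 < β →
      ∀ (i : ι) (a b : ℤ[X]) (ε : ℝ), 0 < ε →
        {n : ℕ | 1 ≤ n ∧ (∃ m : ℕ, |(n : ℝ) - β * x ^ lam m| ≤ x ^ (θ * lam m)) ∧
          ¬ ∀ y : ℕ, y ^ 2 ≤ n → HLaw H i a b κ ε n y}.Finite := by
  obtain ⟨e, he⟩ := enumE ι
  obtain ⟨E, hE, h⟩ := near_rel (fun k => HS H (e k).1 (e k).2.1 (e k).2.2) hlam hκ0 hκ1 hθ B hB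
  refine ⟨E, hE, fun x hx hxE β hβ hβ0 i a b ε hε => ?_⟩
  obtain ⟨k, hk⟩ := he (a, b, i)
  refine (h x hx hxE β hβ hβ0 k ε hε).subset ?_
  rintro n ⟨hn1, hn2, hn3⟩
  refine ⟨hn1, hn2, fun hall => hn3 fun y hy => ?_⟩
  have h1 := hall y hy
  simp only [hk] at h1
  rw [cnt_HS hH, mdl_HS hH] at h1
  exact h1

end Pool.Agent.V1176.LN
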