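import Pool.Agent.V1176.LN.Rel
import Pool.Agent.V1176.LN.Var

/-! One-parameter families of elliptic curves `y² = x³ + a(n) x + b(n)` and properties at `p` which depend on the
coefficients modulo `p`. -/

set_option autoImplicit false

open Finset Filter Topology Polynomial

namespace Pool.Agent.V1176.LN

/-- the number of the solutions `(x, y)` of `y² = x³ + A x + B` modulo `p` -/
def points (p : ℕ) (A B : ℤ) : ℕ :=
  ((range p ×ˢ range p).filter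
    (fun xy : ℕ × ℕ => (p : ℤ) ∣ (xy.2 : ℤ) ^ 2 - ((xy.1 : ℤ) ^ 3 + A * xy.1 + B))).card

/-- the curve `y² = x³ + A x + B` remains smooth modulo `p` -/
def Smooth (p : ℕ) (A B : ℤ) : Prop := ¬ (p : ℤ) ∣ 2 * (4 * A ^ 3 + 27 * B ^ 2)

theorem points_congr (p : ℕ) {A A' B B' : ℤ} (hA : (p : ℤ) ∣ A - A') (hB : (p : ℤ) ∣ B - B') :
    points p A B = points p A' B' := by
  unfold points
  congr 1
  refine filter_congr fun xy _ => ?_
  apply dvd_iff_dvd_of_dvd_sub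
  have e : (xy.2 : ℤ) ^ 2 - ((xy.1 : ℤ) ^ 3 + A * xy.1 + B) - ((xy.2 : ℤ) ^ 2 - ((xy.1 : ℤ) ^ 3 + A' * xy.1 + B')) =
      -((A - A') * xy.1) - (B - B') := by ring
  rw [e]
  exact dvd_sub (dvd_neg.2 (Dvd.dvd.mul_right hA _)) hB

theorem smooth_congr (p : ℕ) {A A' B B' : ℤ} (hA : (p : ℤ) ∣ A - A') (hB : (p : ℤ) ∣ B - B') :
    Smooth p A B ↔ Smooth p A' B' := by
  unfold Smooth
  refine not_congr ?_
  apply dvd_iff_dvd_of_dvd_sub
  have e : 2 * (4 * A ^ 3 + 27 * B ^ 2) - 2 * (4 * A' ^ 3 + 27 * B' ^ 2) =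
      (A - A') * (8 * (A ^ 2 + A * A' + A' ^ 2)) + (B - B') * (54 * (B + B')) := by ring
  rw [e]
  exact dvd_add (Dvd.dvd.mul_right hA _) (Dvd.dvd.mul_right hB _)

variable {ι : Type} (H : ι → ℕ → ℤ → ℤ → Prop)

/-- the residue classes with the property -/
def HS (a b : ℤ[X]) (i : ι) (p : ℕ) : Set (ZMod p) :=
  {z | ∀ n : ℤ, (n : ZMod p) = z → H i p (a.eval n) (b.eval n)}

theorem eval_dvd (a : ℤ[X]) {p : ℕ} {n n' : ℤ} (h : (n : ZMod p) = (n' : ZMod p)) : (p : ℤ) ∣ a.eval n - a.eval n' := by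
  have h1 : (p : ℤ) ∣ n - n' := by
    rw [← ZMod.intCast_zmod_eq_zero_iff_dvd, Int.cast_sub, h, sub_self]
  exact h1.trans (a.sub_dvd_eval_sub n n')

variable {H}

theorem mem_HS (hH : ∀ (i : ι) (p : ℕ) (A A' B B' : ℤ), (p : ℤ) ∣ A - A' → (p : ℤ) ∣ B - B' → H i p A B → H i p A' B')
    (a b : ℤ[X]) (i : ι) (p : ℕ) (n : ℤ) : (n : ZMod p) ∈ HS H a b i p ↔ H i p (a.eval n) (b.eval n) := by
  constructor
  · intro h
    exact h n rfl
  · intro h n' hn'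
    exact hH i p _ _ _ _ (eval_dvd a hn'.symm) (eval_dvd b hn'.symm) h

open Classical in
/-- the number of the primes `p ≤ x` at which the curve has the property -/
noncomputable def hcount (H : ι → ℕ → ℤ → ℤ → Prop) (i : ι) (A B : ℤ) (x : ℕ) : ℕ :=
  ((range (x + 1)).filter (fun p => p.Prime ∧ H i p A B)).card

open Classical in
/-- the sum over the primes `p ≤ x` of the proportion of the members of the family modulo `p` with the property -/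
noncomputable def hmodel (H : ι → ℕ → ℤ → ℤ → Prop) (i : ι) (a b : ℤ[X]) (x : ℕ) : ℝ :=
  ∑ p ∈ (range (x + 1)).filter Nat.Prime,
    (((range p).filter (fun r : ℕ => H i p (a.eval (r : ℤ)) (b.eval (r : ℤ)))).card : ℝ) / p

theorem cnt_HS (hH : ∀ (i : ι) (p : ℕ) (A A' B B' : ℤ), (p : ℤ) ∣ A - A' → (p : ℤ) ∣ B - B' → H i p A B → H i p A' B')
    (a b : ℤ[X]) (i : ι) (n : ℤ) (x : ℕ) : cnt (HS H a b i) n x = hcount H i (a.eval n) (b.eval n) x := by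
  classical
  unfold cnt hcount
  congr 1
  refine filter_congr fun p _ => and_congr_right fun _ => ?_
  exact mem_HS hH a b i p n

theorem mdl_HS (hH : ∀ (i : ι) (p : ℕ) (A A' B B' : ℤ), (p : ℤ) ∣ A - A' → (p : ℤ) ∣ B - B' → H i p A B → H i p A' B')
    (a b : ℤ[X]) (i : ι) (x : ℕ) : mdl (HS H a b i) x = hmodel H i a b x := by
  classical
  unfold mdl hmodel
  refine sum_congr rfl fun p _ => ?_
  congr 2
  apply congrArg
  refine filter_congr fun r _ => ?_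
  rw [← mem_HS hH a b i p (r : ℤ), Int.cast_natCast]

/-- the law for the member `n` up to `x` -/
def HLaw (H : ι → ℕ → ℤ → ℤ → Prop) (i : ι) (a b : ℤ[X]) (κ ε : ℝ) (n x : ℕ) : Prop :=
  |(hcount H i (a.eval (n : ℤ)) (b.eval (n : ℤ)) x : ℝ) - hmodel H i a b x| ≤ ε * max (hmodel H i a b x) ((n : ℝ) ^ κ)

theorem enumE (ι : Type) [Countable ι] [Nonempty ι] : ∃ e : ℕ → ℤ[X] × ℤ[X] × ι, Function.Surjective e := by
  have h1 : Countable ℤ[X] := countable_poly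
  exact exists_surjective_nat _

theorem ell_win [Countable ι] [Nonempty ι]
    (hH : ∀ (i : ι) (p : ℕ) (A A' B B' : ℤ), (p : ℤ) ∣ A - A' → (p : ℤ) ∣ B - B' → H i p A B → H i p A' B')
    {v : ℕ → ℝ} {κ τ ϑ : ℝ} (hpos : ∀ n, 1 ≤ v n) (hτ : 0 ≤ τ)
    (hv : ∀ t : ℝ, τ < t → Summable (fun n : ℕ => (v n) ^ (-t))) (hκ0 : 0 ≤ κ) (hκ1 : κ ≤ 1) (hϑ : ϑ < 1) :
    ∃ E : Set ℝ, dimH E ≤ ENNReal.ofReal ((1 - κ + τ) / (1 - ϑ)) ∧ ∀ α : ℝ, 0 < α → α ∉ E →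
      ∀ (i : ι) (a b : ℤ[X]) (ε : ℝ), 0 < ε → InWindows2 v ϑ α (HLaw H i a b κ ε) := by
  obtain ⟨e, he⟩ := enumE ι
  obtain ⟨E, hE, h⟩ := win_rel (fun k => HS H (e k).1 (e k).2.1 (e k).2.2) hpos hτ hv hκ0 hκ1 hϑ
  refine ⟨E, hE, fun α hα hαE i a b ε hε => ?_⟩
  obtain ⟨k, hk⟩ := he (a, b, i)
  obtain ⟨ν₀, h0⟩ := h α hα hαE k ε hε
  refine ⟨ν₀, fun ν hν n hn hw x hx => ?_⟩
  have h1 := h0 ν hν n hn hw x hx
  simp only [hk] at h1
  rw [cnt_HS hH, mdl_HS hH] at h1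
  exact h1

theorem ell_cls (q : ℕ) [Fact q.Prime] [Countable ι] [Nonempty ι]
    (hH : ∀ (i : ι) (p : ℕ) (A A' B B' : ℤ), (p : ℤ) ∣ A - A' → (p : ℤ) ∣ B - B' → H i p A B → H i p A' B')
    {κ σ : ℝ} (hκ0 : 0 ≤ κ) (hκ1 : κ ≤ 1) (hσ : 0 < σ) :
    ∃ E : Set ℤ_[q], dimH E ≤ ENNReal.ofReal ((1 - κ) / σ) ∧ ∀ α : ℤ_[q], α ∉ E →
      ∀ (i : ι) (a b : ℤ[X]) (ε : ℝ), 0 < ε → InClasses2 q σ α (HLaw H i a b κ ε) := by
  obtain ⟨e, he⟩ := enumE ι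
  obtain ⟨E, hE, h⟩ := cls_rel q (fun k => HS H (e k).1 (e k).2.1 (e k).2.2) hκ0 hκ1 hσ
  refine ⟨E, hE, fun α hαE i a b ε hε => ?_⟩
  obtain ⟨k, hk⟩ := he (a, b, i)
  obtain ⟨Y₀, h0⟩ := h α hαE k ε hε
  refine ⟨Y₀, fun Y hY n hn hnY hw x hx => ?_⟩
  have h1 := h0 Y hY n hn hnY hw x hx
  simp only [hk] at h1
  rw [cnt_HS hH, mdl_HS hH] at h1
  exact h1

end Pool.Agent.V1176.LN
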