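import Pool.Agent.V1176.LN.Sets

/-! The law for rare events: the error is relative to the expected number. -/

set_option autoImplicit false

open Finset Filter Topology

namespace Pool.Agent.V1176.LN

open Pool.Agent.TH375.KL (dev nu Pr dual)

theorem mdl_nonneg (S : ∀ p : ℕ, Set (ZMod p)) (x : ℕ) : 0 ≤ mdl S x := by
  unfold mdl
  exact sum_nonneg fun p _ => by positivity

theorem mdl_mono (S : ∀ p : ℕ, Set (ZMod p)) {x y : ℕ} (h : x ≤ y) : mdl S x ≤ mdl S y := by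
  unfold mdl
  refine sum_le_sum_of_subset_of_nonneg ?_ fun p _ _ => by positivity
  intro p hp
  rw [mem_filter, mem_range] at hp ⊢
  exact ⟨by omega, hp.2⟩

theorem cnt_mono (S : ∀ p : ℕ, Set (ZMod p)) (n : ℤ) {x y : ℕ} (h : x ≤ y) : cnt S n x ≤ cnt S n y := by
  classical
  unfold cnt
  refine card_le_card fun p hp => ?_
  rw [mem_filter, mem_range] at hp ⊢
  exact ⟨by omega, hp.2⟩

theorem mdl_le (S : ∀ p : ℕ, Set (ZMod p)) (x : ℕ) : mdl S x ≤ x := by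
  classical
  have h1 : mdl S x = ∑ p ∈ Pr x, nu (ind S) p := by
    unfold mdl Pool.Agent.TH375.KL.Pr
    exact sum_congr rfl fun p _ => (nu_ind S p).symm
  rw [h1]
  have h2 : ∑ p ∈ Pr x, nu (ind S) p ≤ ∑ p ∈ Pr x, (1 : ℝ) :=
    sum_le_sum fun p _ => (le_abs_self _).trans (Pool.Agent.TH375.KL.nu_le (ind_le S) p)
  refine h2.trans ?_
  rw [sum_const, nsmul_eq_mul, mul_one, Pool.Agent.TH375.KL.card_Pr]
  have h3 : Nat.primeCounting x ≤ x := by
    rw [← Pool.Agent.TH375.KL.card_Pr]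
    have h4 : Pr x ⊆ Icc 1 x := by
      intro p hp
      unfold Pool.Agent.TH375.KL.Pr at hp
      rw [mem_filter, mem_range] at hp
      rw [mem_Icc]
      exact ⟨hp.2.pos, by omega⟩
    have := card_le_card h4
    rwa [Nat.card_Icc, Nat.add_sub_cancel] at this
  exact_mod_cast h3

/-- the variance -/
theorem variance_le (S : ∀ p : ℕ, Set (ZMod p)) (N F : ℕ) :
    ∑ n ∈ Icc 1 N, ((cnt S (n : ℤ) F : ℝ) - mdl S F) ^ 2 ≤ 6 * (N + (F : ℝ) ^ 2) * mdl S F := by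
  classical
  have h1 := dual F N (Pr F) (fun p hp => by
      unfold Pool.Agent.TH375.KL.Pr at hp
      rw [mem_filter, mem_range] at hp
      exact ⟨hp.2, by omega⟩) 0 (fun p a => ind S p a - nu (ind S) p) (fun p hp => by
      unfold Pool.Agent.TH375.KL.Pr at hp
      rw [mem_filter] at hp
      have hp0 : (p : ℝ) ≠ 0 := by
        have := hp.2.pos
        positivity
      rw [sum_sub_distrib, sum_const, card_range, nsmul_eq_mul]
      unfold Pool.Agent.TH375.KL.nu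
      field_simp
      ring)
  have h2 : ∑ p ∈ Pr F, (∑ a ∈ range p, (ind S p (a : ZMod p) - nu (ind S) p) ^ 2) / p ≤ mdl S F := by
    have h3 : mdl S F = ∑ p ∈ Pr F, nu (ind S) p := by
      unfold mdl Pool.Agent.TH375.KL.Pr
      exact sum_congr rfl fun p _ => (nu_ind S p).symm
    rw [h3]
    refine sum_le_sum fun p hp => ?_
    unfold Pool.Agent.TH375.KL.Pr at hp
    rw [mem_filter] at hp
    have hp0 : (0 : ℝ) < p := by exact_mod_cast hp.2.pos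
    rw [div_le_iff₀ hp0]
    have h4 : ∀ a : ℕ, (ind S p (a : ZMod p) - nu (ind S) p) ^ 2 =
        ind S p (a : ZMod p) ^ 2 - 2 * nu (ind S) p * ind S p (a : ZMod p) + nu (ind S) p ^ 2 := fun a => by ring
    simp only [h4]
    rw [sum_add_distrib, sum_sub_distrib, ← mul_sum, sum_const, card_range, nsmul_eq_mul]
    have h5 : ∑ a ∈ range p, ind S p (a : ZMod p) = p * nu (ind S) p := by
      unfold Pool.Agent.TH375.KL.nu
      field_simp
    have h6 : ∑ a ∈ range p, ind S p (a : ZMod p) ^ 2 = p * nu (ind S) p := by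
      rw [← h5]
      refine sum_congr rfl fun a _ => ?_
      unfold ind
      split_ifs <;> norm_num
    rw [h5, h6]
    nlinarith [sq_nonneg (nu (ind S) p), mul_nonneg hp0.le (sq_nonneg (nu (ind S) p))]
  have h3 : ∑ n ∈ Icc 1 N, ((cnt S (n : ℤ) F : ℝ) - mdl S F) ^ 2 =
      ∑ n ∈ Icc 1 N, (∑ p ∈ Pr F, (ind S p ((0 + (n : ℤ) : ℤ) : ZMod p) - nu (ind S) p)) ^ 2 := by
    refine sum_congr rfl fun n _ => ?_
    rw [← dev_ind, zero_add]
    rfl
  rw [h3]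
  exact h1.trans (mul_le_mul_of_nonneg_left h2 (by positivity))

open Classical in
/-- one scale -/
theorem one_scale_rel (S : ∀ p : ℕ, Set (ZMod p)) {η B : ℝ} (hη : 0 < η) (hB : 0 < B) (N F : ℕ)
    (hF : (F : ℝ) ^ 2 ≤ N) :
    (((Icc 1 N).filter fun n : ℕ => η * max (mdl S F) B < |(cnt S (n : ℤ) F : ℝ) - mdl S F|).card : ℝ) ≤
      12 * N / (η ^ 2 * B) := by
  obtain ⟨E, hE⟩ : ∃ E, E = (Icc 1 N).filter fun n : ℕ => η * max (mdl S F) B < |(cnt S (n : ℤ) F : ℝ) - mdl S F| :=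
    ⟨_, rfl⟩
  rw [← hE]
  have hM := mdl_nonneg S F
  obtain ⟨m, hm⟩ : ∃ m, m = max (mdl S F) B := ⟨_, rfl⟩
  have hmB : B ≤ m := by rw [hm]; exact le_max_right _ _
  have hmM : mdl S F ≤ m := by rw [hm]; exact le_max_left _ _
  have hm0 : 0 < m := lt_of_lt_of_le hB hmB
  have h4 : (E.card : ℝ) * (η * m) ^ 2 ≤ 12 * N * m := by
    calc (E.card : ℝ) * (η * m) ^ 2 = ∑ _n ∈ E, (η * m) ^ 2 := by rw [sum_const, nsmul_eq_mul]
      _ ≤ ∑ n ∈ E, ((cnt S (n : ℤ) F : ℝ) - mdl S F) ^ 2 := by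
          refine sum_le_sum fun n hn => ?_
          rw [hE, mem_filter] at hn
          rw [← sq_abs ((cnt S (n : ℤ) F : ℝ) - mdl S F), hm]
          exact pow_le_pow_left₀ (by positivity) hn.2.le 2
      _ ≤ ∑ n ∈ Icc 1 N, ((cnt S (n : ℤ) F : ℝ) - mdl S F) ^ 2 := by
          rw [hE]
          exact sum_le_sum_of_subset_of_nonneg (filter_subset _ _) fun _ _ _ => sq_nonneg _
      _ ≤ 6 * (N + (F : ℝ) ^ 2) * mdl S F := variance_le S N F
      _ ≤ 6 * (N + N) * m := by gcongr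
      _ = 12 * N * m := by ring
  rw [le_div_iff₀ (by positivity)]
  have h5 : (E.card : ℝ) * (η ^ 2 * m) * m ≤ 12 * N * m := by
    refine le_trans (le_of_eq ?_) h4
    ring
  have h6 := le_of_mul_le_mul_right h5 hm0
  refine le_trans ?_ h6
  gcongr

/-- comparison of two scales of one class -/
theorem compare {η B u u' M M' c' : ℝ} (hη : 0 < η) (hη1 : η ≤ 1) (hB : 0 < B) (hM : 0 ≤ M) (hM' : 0 ≤ M')
    (hu : u = max M (η * B)) (hu' : u' = max M' (η * B)) (h : u' ≤ (1 + η) * u)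
    (hc : |c' - M'| ≤ η * max M' B) : M' ≤ M + 2 * η * max M B ∧ c' ≤ M + 6 * η * max M B := by
  have h1 : M' ≤ M + 2 * η * max M B := by
    have h2 : M' ≤ (1 + η) * u := (le_max_left _ _).trans (hu' ▸ h)
    have h3 : B ≤ max M B := le_max_right _ _
    have h4 : M ≤ max M B := le_max_left _ _
    rcases le_total M (η * B) with h5 | h5
    · rw [max_eq_right h5] at hu
      rw [hu] at h2
      nlinarith
    · rw [max_eq_left h5] at hu
      rw [hu] at h2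
      nlinarith
  refine ⟨h1, ?_⟩
  have h2 : max M' B ≤ 3 * max M B := by
    have h3 : B ≤ max M B := le_max_right _ _
    have h4 : M ≤ max M B := le_max_left _ _
    have h5 : 0 ≤ max M B := hM.trans h4
    refine max_le ?_ (by linarith)
    nlinarith
  have h3 := (abs_le.1 hc).2
  have h4 := mul_le_mul_of_nonneg_left h2 hη.le
  have h5 : 0 ≤ η * max M B := mul_nonneg hη.le (hM.trans (le_max_left _ _))
  linarith

/-- the converse comparison -/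
theorem compare' {η B u u' M M' c' : ℝ} (hη : 0 < η) (_hη1 : η ≤ 1) (hB : 0 < B) (hM : 0 ≤ M) (hM' : 0 ≤ M')
    (hu : u = max M (η * B)) (hu' : u' = max M' (η * B)) (h : u ≤ (1 + η) * u') (hle : M' ≤ M)
    (hc : |c' - M'| ≤ η * max M' B) : M - 6 * η * max M B ≤ c' := by
  have h0 : 0 ≤ max M B := hM.trans (le_max_left _ _)
  have h3 : B ≤ max M B := le_max_right _ _
  have h4 : M ≤ max M B := le_max_left _ _
  have h2 : max M' B ≤ max M B := max_le_max hle le_rfl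
  have h5 := (abs_le.1 hc).1
  have h6 := mul_le_mul_of_nonneg_left h2 hη.le
  have h7 : M ≤ M' + 2 * η * max M B := by
    have h8 : M ≤ (1 + η) * u' := (le_max_left _ _).trans (hu ▸ h)
    have h9 : η * B ≤ η * max M B := mul_le_mul_of_nonneg_left h3 hη.le
    rcases le_total M' (η * B) with h10 | h10
    · rw [max_eq_right h10] at hu'
      rw [hu'] at h8
      nlinarith
    · rw [max_eq_left h10] at hu'
      rw [hu'] at h8
      have h11 : η * M' ≤ η * max M B := mul_le_mul_of_nonneg_left (hle.trans h4) hη.le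
      nlinarith
  have h8 : 0 ≤ η * max M B := mul_nonneg hη.le h0
  linarith

open Classical in
/-- **All scales**: few integers violate the law at some `x ≤ z` -/
theorem all_scales_rel (S : ∀ p : ℕ, Set (ZMod p)) {η B : ℝ} (hη : 0 < η) (hη1 : η ≤ 1) (hB : 1 ≤ B) (N z : ℕ)
    (hN : 1 ≤ N) (hz : (z : ℝ) ^ 2 ≤ N) :
    (((Icc 1 N).filter fun n : ℕ => ∃ x : ℕ, x ≤ z ∧
      6 * η * max (mdl S x) B < |(cnt S (n : ℤ) x : ℝ) - mdl S x|).card : ℝ) ≤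
      2 * (Real.log (N / η) / Real.log (1 + η) + 1) * (12 * N / (η ^ 2 * B)) := by
  have hB0 : 0 < B := by linarith
  have hN1 : (1 : ℝ) ≤ N := by exact_mod_cast hN
  have hρ : 1 < 1 + η := by linarith
  have hlρ : 0 < Real.log (1 + η) := Real.log_pos hρ
  obtain ⟨u, hu⟩ : ∃ u : ℕ → ℝ, u = fun x => max (mdl S x) (η * B) := ⟨_, rfl⟩
  have hu0 : ∀ x, 1 ≤ u x / (η * B) := by
    intro x
    rw [one_le_div (by positivity), hu]
    exact le_max_right _ _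
  choose J hJ1 hJ2 using fun x => exists_nat_pow_near (hu0 x) hρ
  -- the number of the classes
  have hJL : ∀ x, x ≤ z → J x ≤ ⌊Real.log (N / η) / Real.log (1 + η)⌋₊ := by
    intro x hx
    apply Nat.le_floor
    rw [le_div_iff₀ hlρ, ← Real.log_pow]
    apply Real.log_le_log (by positivity)
    refine (hJ1 x).trans ?_
    rw [div_le_div_iff₀ (by positivity) hη, hu]
    simp only
    have hxz : (x : ℝ) ≤ z := by exact_mod_cast hx
    have hxN : (x : ℝ) ≤ N := by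
      rcases Nat.eq_zero_or_pos z with h0 | h0
      · rw [h0, Nat.cast_zero] at hxz
        linarith
      · have h1 : (1 : ℝ) ≤ z := by exact_mod_cast h0
        nlinarith
    have h1 : max (mdl S x) (η * B) ≤ N * B := by
      refine max_le ?_ ?_
      · exact ((mdl_le S x).trans hxN).trans (by nlinarith)
      · nlinarith
    nlinarith
  obtain ⟨L, hL⟩ : ∃ L, L = ⌊Real.log (N / η) / Real.log (1 + η)⌋₊ := ⟨_, rfl⟩
  rw [← hL] at hJL
  -- the bad sets of single scales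
  obtain ⟨bad, hbad⟩ : ∃ bad : ℕ → Finset ℕ, bad = fun F => (Icc 1 N).filter fun n : ℕ =>
      η * max (mdl S F) B < |(cnt S (n : ℤ) F : ℝ) - mdl S F| := ⟨_, rfl⟩
  have hbad1 : ∀ F, F ≤ z → ((bad F).card : ℝ) ≤ 12 * N / (η ^ 2 * B) := by
    intro F hF
    rw [hbad]
    refine one_scale_rel S hη hB0 N F (le_trans ?_ hz)
    have : (F : ℝ) ≤ z := by exact_mod_cast hF
    gcongr
  -- the first and the last member of each class
  obtain ⟨cl, hcl⟩ : ∃ cl : ℕ → Finset ℕ, cl = fun i => (Icc 0 z).filter fun x => J x = i := ⟨_, rfl⟩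
  obtain ⟨lo, hlo⟩ : ∃ lo : ℕ → ℕ, lo = fun i => if h : (cl i).Nonempty then (cl i).min' h else 0 := ⟨_, rfl⟩
  obtain ⟨hi, hhi⟩ : ∃ hi : ℕ → ℕ, hi = fun i => if h : (cl i).Nonempty then (cl i).max' h else 0 := ⟨_, rfl⟩
  have hclz : ∀ i x, x ∈ cl i → x ≤ z ∧ J x = i := by
    intro i x hx
    rw [hcl] at hx
    simp only [mem_filter, mem_Icc] at hx
    exact ⟨hx.1.2, hx.2⟩
  have hloz : ∀ i, lo i ≤ z := by
    intro i
    rw [hlo]
    simp only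
    split_ifs with h
    · exact (hclz i _ ((cl i).min'_mem h)).1
    · exact Nat.zero_le _
  have hhiz : ∀ i, hi i ≤ z := by
    intro i
    rw [hhi]
    simp only
    split_ifs with h
    · exact (hclz i _ ((cl i).max'_mem h)).1
    · exact Nat.zero_le _
  have hsub : ((Icc 1 N).filter fun n : ℕ => ∃ x : ℕ, x ≤ z ∧
      6 * η * max (mdl S x) B < |(cnt S (n : ℤ) x : ℝ) - mdl S x|) ⊆
      (range (L + 1)).biUnion (fun i => bad (lo i) ∪ bad (hi i)) := by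
    intro n hn
    rw [mem_filter] at hn
    obtain ⟨hn1, x, hxz, hx⟩ := hn
    rw [mem_biUnion]
    refine ⟨J x, mem_range.2 (Nat.lt_succ_of_le (hJL x hxz)), ?_⟩
    by_contra hcon
    rw [mem_union, not_or] at hcon
    obtain ⟨hc1, hc2⟩ := hcon
    rw [hbad] at hc1 hc2
    simp only [mem_filter, not_and, not_lt] at hc1 hc2
    have hg1 := hc1 hn1
    have hg2 := hc2 hn1
    have hxcl : x ∈ cl (J x) := by
      rw [hcl]
      simp only [mem_filter, mem_Icc]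
      exact ⟨⟨Nat.zero_le _, hxz⟩, trivial⟩
    have hne : (cl (J x)).Nonempty := ⟨x, hxcl⟩
    have hlo1 : lo (J x) ∈ cl (J x) := by
      rw [hlo]
      simp only
      rw [dif_pos hne]
      exact min'_mem _ _
    have hhi1 : hi (J x) ∈ cl (J x) := by
      rw [hhi]
      simp only
      rw [dif_pos hne]
      exact max'_mem _ _
    have hlo2 : lo (J x) ≤ x := by
      rw [hlo]
      simp only
      rw [dif_pos hne]
      exact min'_le _ _ hxcl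
    have hhi2 : x ≤ hi (J x) := by
      rw [hhi]
      simp only
      rw [dif_pos hne]
      exact le_max' _ _ hxcl
    have hratio : ∀ y, J y = J x → u y ≤ (1 + η) * u x ∧ u x ≤ (1 + η) * u y := by
      intro y hy
      have hηB : 0 < η * B := by positivity
      have a1 := hJ1 x
      have a2 := hJ2 x
      have b1 := hJ1 y
      have b2 := hJ2 y
      rw [hy] at b1 b2
      rw [le_div_iff₀ hηB] at a1 b1
      rw [div_lt_iff₀ hηB, pow_succ] at a2 b2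
      constructor
      · nlinarith
      · nlinarith
    have hM0 := mdl_nonneg S
    obtain ⟨r1, r2⟩ := hratio (lo (J x)) (hclz _ _ hlo1).2
    obtain ⟨r3, r4⟩ := hratio (hi (J x)) (hclz _ _ hhi1).2
    have hux : u x = max (mdl S x) (η * B) := by rw [hu]
    have hulo : u (lo (J x)) = max (mdl S (lo (J x))) (η * B) := by rw [hu]
    have huhi : u (hi (J x)) = max (mdl S (hi (J x))) (η * B) := by rw [hu]
    have k1 := (compare hη hη1 hB0 (hM0 x) (hM0 _) hux huhi r3 hg2).2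
    have k2 := compare' hη hη1 hB0 (hM0 x) (hM0 _) hux hulo r2 (mdl_mono S hlo2) hg1
    have c1 : (cnt S (n : ℤ) x : ℝ) ≤ cnt S (n : ℤ) (hi (J x)) := by exact_mod_cast cnt_mono S _ hhi2
    have c2 : (cnt S (n : ℤ) (lo (J x)) : ℝ) ≤ cnt S (n : ℤ) x := by exact_mod_cast cnt_mono S _ hlo2
    have : |(cnt S (n : ℤ) x : ℝ) - mdl S x| ≤ 6 * η * max (mdl S x) B := by
      rw [abs_le]
      constructor <;> linarith
    linarith
  have h1 := (card_le_card hsub).trans card_biUnion_le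
  have h2 : (((Icc 1 N).filter fun n : ℕ => ∃ x : ℕ, x ≤ z ∧
      6 * η * max (mdl S x) B < |(cnt S (n : ℤ) x : ℝ) - mdl S x|).card : ℝ) ≤
      ∑ i ∈ range (L + 1), ((bad (lo i) ∪ bad (hi i)).card : ℝ) := by exact_mod_cast h1
  refine h2.trans ?_
  have h3 : ∀ i ∈ range (L + 1), ((bad (lo i) ∪ bad (hi i)).card : ℝ) ≤ 2 * (12 * N / (η ^ 2 * B)) := by
    intro i _
    have h4 : ((bad (lo i) ∪ bad (hi i)).card : ℝ) ≤ (bad (lo i)).card + (bad (hi i)).card := by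
      exact_mod_cast card_union_le _ _
    have h5 := hbad1 (lo i) (hloz i)
    have h6 := hbad1 (hi i) (hhiz i)
    linarith
  refine (sum_le_sum h3).trans ?_
  rw [sum_const, card_range, nsmul_eq_mul]
  have h4 : (L : ℝ) ≤ Real.log (N / η) / Real.log (1 + η) := by
    rw [hL]
    apply Nat.floor_le
    apply div_nonneg _ hlρ.le
    apply Real.log_nonneg
    rw [one_le_div hη]
    linarith
  have h5 : (0 : ℝ) ≤ 12 * N / (η ^ 2 * B) := by positivity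
  push_cast
  nlinarith

/-- the integers for which the law fails for some `x ≤ t ^ (1 / 2)` -/
def RBad (S : ∀ p : ℕ, Set (ZMod p)) (ε κ : ℝ) : Set ℕ :=
  {t | 1 ≤ t ∧ ∃ x : ℕ, x ^ 2 ≤ t ∧ ε * max (mdl S x) ((t : ℝ) ^ κ) < |(cnt S (t : ℤ) x : ℝ) - mdl S x|}

theorem few_rel (S : ∀ p : ℕ, Set (ZMod p)) {ε κ δ : ℝ} (hε : 0 < ε) (hκ0 : 0 ≤ κ) (hκ1 : κ ≤ 1) (hδ : 0 < δ) :
    ∃ C : ℝ, ∀ X : ℕ, 1 ≤ X → ({t : ℕ | t ∈ RBad S ε κ ∧ t ≤ X}.ncard : ℝ) ≤ C * (X : ℝ) ^ (1 - κ + δ) := by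
  classical
  obtain ⟨η, hη'⟩ : ∃ η, η = min (ε / 6) 1 := ⟨_, rfl⟩
  have hη0 : 0 < η := by rw [hη']; exact lt_min (by linarith) one_pos
  have hη1 : η ≤ 1 := by rw [hη']; exact min_le_right _ _
  have hηε : 6 * η ≤ ε := by
    have : η ≤ ε / 6 := by rw [hη']; exact min_le_left _ _
    linarith
  have hl : 0 < Real.log (1 + η) := Real.log_pos (by linarith)
  obtain ⟨C₁, hC₁⟩ : ∃ C₁, C₁ = (2 / δ + Real.log (1 / η)) / Real.log (1 + η) + 1 := ⟨_, rfl⟩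
  have hlη : 0 ≤ Real.log (1 / η) := Real.log_nonneg ((one_le_div hη0).2 hη1)
  have hC₁0 : 0 < C₁ := by rw [hC₁]; positivity
  obtain ⟨C₂, hC₂⟩ : ∃ C₂, C₂ = 48 * C₁ / η ^ 2 := ⟨_, rfl⟩
  have hlim : ∀ᶠ X : ℕ in atTop, C₂ ≤ (X : ℝ) ^ (δ / 2) :=
    ((tendsto_rpow_atTop (by positivity)).comp tendsto_natCast_atTop_atTop).eventually_ge_atTop _
  obtain ⟨X₀, hX₀⟩ := eventually_atTop.1 (hlim.and (eventually_ge_atTop 2))
  refine Pool.Agent.V1176.SQ.dyad_count (by linarith) (RBad S ε κ) (fun X t => t ∈ RBad S ε κ ∧ X < 2 * t) X₀ ?_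
    (fun X _ t ht _ h2 _ => ⟨ht, h2⟩)
  intro X hX
  obtain ⟨h1, h3⟩ := hX₀ X hX
  have hX2 : (2 : ℝ) ≤ X := by exact_mod_cast h3
  have hXpos : (0 : ℝ) < X := by linarith
  have hB : (1 : ℝ) ≤ ((X : ℝ) / 2) ^ κ := Real.one_le_rpow (by linarith) hκ0
  have hz : ((Nat.sqrt X : ℕ) : ℝ) ^ 2 ≤ X := by exact_mod_cast Nat.sqrt_le' X
  have key := all_scales_rel S hη0 hη1 hB X (Nat.sqrt X) (by omega) hz
  have hcard : ({t : ℕ | 1 ≤ t ∧ t ≤ X ∧ (t ∈ RBad S ε κ ∧ X < 2 * t)}.ncard : ℝ) ≤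
      (((Icc 1 X).filter fun n : ℕ => ∃ x : ℕ, x ≤ Nat.sqrt X ∧
        6 * η * max (mdl S x) (((X : ℝ) / 2) ^ κ) < |(cnt S (n : ℤ) x : ℝ) - mdl S x|).card : ℝ) := by
    rw [← Set.ncard_coe_finset]
    refine Nat.cast_le.2 (Set.ncard_le_ncard ?_ (Finset.finite_toSet _))
    rintro t ⟨ht1, ht2, ht3, ht4⟩
    obtain ⟨-, x, hx1, hx2⟩ := ht3
    rw [Finset.mem_coe, mem_filter, mem_Icc]
    refine ⟨⟨ht1, ht2⟩, x, Nat.le_sqrt'.2 (hx1.trans ht2), lt_of_le_of_lt ?_ hx2⟩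
    have hB' : ((X : ℝ) / 2) ^ κ ≤ (t : ℝ) ^ κ := by
      refine Real.rpow_le_rpow (by positivity) ?_ hκ0
      have : (X : ℝ) < 2 * t := by exact_mod_cast ht4
      linarith
    have hm := mdl_nonneg S x
    have hmx : max (mdl S x) (((X : ℝ) / 2) ^ κ) ≤ max (mdl S x) ((t : ℝ) ^ κ) := max_le_max le_rfl hB'
    have h0 : 0 ≤ max (mdl S x) (((X : ℝ) / 2) ^ κ) := hm.trans (le_max_left _ _)
    exact mul_le_mul hηε hmx h0 hε.le
  refine hcard.trans (key.trans ?_)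
  have hXδ : (1 : ℝ) ≤ (X : ℝ) ^ (δ / 2) := Real.one_le_rpow (by linarith) (by positivity)
  have hlog : Real.log (X / η) / Real.log (1 + η) + 1 ≤ C₁ * (X : ℝ) ^ (δ / 2) := by
    have h4 : Real.log X ≤ (X : ℝ) ^ (δ / 2) / (δ / 2) := Real.log_le_rpow_div hXpos.le (by positivity)
    have h5 : Real.log (X / η) = Real.log X + Real.log (1 / η) := by
      rw [← Real.log_mul (by positivity) (by positivity)]
      congr 1
      ring
    have h6 : Real.log (X / η) ≤ (2 / δ + Real.log (1 / η)) * (X : ℝ) ^ (δ / 2) := by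
      rw [h5]
      have h7 : (X : ℝ) ^ (δ / 2) / (δ / 2) = 2 / δ * (X : ℝ) ^ (δ / 2) := by field_simp
      rw [h7] at h4
      nlinarith
    rw [hC₁, add_mul, one_mul]
    refine add_le_add ?_ hXδ
    rw [div_mul_eq_mul_div]
    exact div_le_div_of_nonneg_right h6 hl.le
  have hpow : (X : ℝ) / ((X : ℝ) / 2) ^ κ ≤ 2 * (X : ℝ) ^ (1 - κ) := by
    rw [Real.div_rpow hXpos.le (by norm_num), div_div_eq_mul_div, Real.rpow_sub hXpos, Real.rpow_one]
    have h7 : (2 : ℝ) ^ κ ≤ 2 := by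
      calc (2 : ℝ) ^ κ ≤ (2 : ℝ) ^ (1 : ℝ) := Real.rpow_le_rpow_of_exponent_le (by norm_num) hκ1
        _ = 2 := Real.rpow_one _
    have h8 : (0 : ℝ) < (X : ℝ) ^ κ := by positivity
    rw [← mul_div_assoc]
    apply div_le_div_of_nonneg_right _ h8.le
    nlinarith
  have hB0 : (0 : ℝ) < ((X : ℝ) / 2) ^ κ := by linarith
  calc 2 * (Real.log (X / η) / Real.log (1 + η) + 1) * (12 * X / (η ^ 2 * ((X : ℝ) / 2) ^ κ))
      = 24 / η ^ 2 * ((Real.log (X / η) / Real.log (1 + η) + 1) * ((X : ℝ) / ((X : ℝ) / 2) ^ κ)) := by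
        field_simp
        ring
    _ ≤ 24 / η ^ 2 * ((C₁ * (X : ℝ) ^ (δ / 2)) * (2 * (X : ℝ) ^ (1 - κ))) := by
        refine mul_le_mul_of_nonneg_left ?_ (by positivity)
        refine mul_le_mul hlog hpow (by positivity) (by positivity)
    _ = C₂ * ((X : ℝ) ^ (δ / 2) * (X : ℝ) ^ (1 - κ)) := by
        rw [hC₂]
        ring
    _ ≤ (X : ℝ) ^ (δ / 2) * ((X : ℝ) ^ (δ / 2) * (X : ℝ) ^ (1 - κ)) :=
        mul_le_mul_of_nonneg_right h1 (by positivity)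
    _ = (X : ℝ) ^ (1 - κ + δ) := by
        rw [← Real.rpow_add hXpos, ← Real.rpow_add hXpos]
        congr 1
        ring

/-- `P n x` for all integers `n ≥ 1` in the windows around `α v_ν`, `ν` large, and all `x ≤ n ^ (1 / 2)` -/
def InWindows2 (v : ℕ → ℝ) (ϑ α : ℝ) (P : ℕ → ℕ → Prop) : Prop :=
  ∃ ν₀ : ℕ, ∀ ν : ℕ, ν₀ ≤ ν → ∀ n : ℕ, 1 ≤ n → |(n : ℝ) - α * v ν| ≤ (v ν) ^ ϑ →
    ∀ x : ℕ, x ^ 2 ≤ n → P n x

/-- `P n x` for all large `Y`, all integers `1 ≤ n ≤ Y` with `|n - α| ≤ Y ^ (-σ)` and all `x ≤ n ^ (1 / 2)` -/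
def InClasses2 (q : ℕ) [Fact q.Prime] (σ : ℝ) (α : ℤ_[q]) (P : ℕ → ℕ → Prop) : Prop :=
  ∃ Y₀ : ℝ, ∀ Y : ℝ, Y₀ ≤ Y → ∀ n : ℕ, 1 ≤ n → (n : ℝ) ≤ Y → ‖(n : ℤ_[q]) - α‖ ≤ Y ^ (-σ) →
    ∀ x : ℕ, x ^ 2 ≤ n → P n x

theorem win_rel (S : ℕ → ∀ p : ℕ, Set (ZMod p)) {v : ℕ → ℝ} {κ τ ϑ : ℝ}
    (hpos : ∀ n, 1 ≤ v n) (hτ : 0 ≤ τ) (hv : ∀ t : ℝ, τ < t → Summable (fun n : ℕ => (v n) ^ (-t)))
    (hκ0 : 0 ≤ κ) (hκ1 : κ ≤ 1) (hϑ : ϑ < 1) :
    ∃ E : Set ℝ, dimH E ≤ ENNReal.ofReal ((1 - κ + τ) / (1 - ϑ)) ∧ ∀ α : ℝ, 0 < α → α ∉ E →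
      ∀ k : ℕ, ∀ ε : ℝ, 0 < ε → InWindows2 v ϑ α (fun n x =>
        |(cnt (S k) (n : ℤ) x : ℝ) - mdl (S k) x| ≤ ε * max (mdl (S k) x) ((n : ℝ) ^ κ)) := by
  have hall : ∀ z : ℕ × ℕ, ∃ E : Set ℝ, dimH E ≤ ENNReal.ofReal ((1 - κ + τ) / (1 - ϑ)) ∧
      ∀ α : ℝ, 0 < α → α ∉ E → ∃ n0 : ℕ, ∀ n : ℕ, n0 ≤ n → ∀ t ∈ RBad (S z.1) (1 / ((z.2 : ℝ) + 1)) κ,
        1 * (v n) ^ ϑ < |(t : ℝ) - α * v n| := by
    intro z
    refine Pool.Agent.Y854.GM.windowsV (fun _ => RBad (S z.1) (1 / ((z.2 : ℝ) + 1)) κ) (fun _ (t : ℕ) => (t : ℝ)) 1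
      hpos hτ hv (by linarith) hϑ ?_
    intro A η hη
    obtain ⟨C, hC⟩ := few_rel (S z.1) (ε := 1 / ((z.2 : ℝ) + 1)) (by positivity) hκ0 hκ1 hη
    refine ⟨|C| * ((A : ℝ) + 1) ^ (1 - κ + η), 0, fun n _ => ?_⟩
    have hv1 : 1 ≤ v n := hpos n
    have hA : (1 : ℝ) ≤ ((A : ℝ) + 1) * v n := by nlinarith [(Nat.cast_nonneg A : (0 : ℝ) ≤ A)]
    have hset : {t : ℕ | t ∈ RBad (S z.1) (1 / ((z.2 : ℝ) + 1)) κ ∧ (t : ℝ) ≤ ((A : ℝ) + 1) * v n} =
        {t : ℕ | t ∈ RBad (S z.1) (1 / ((z.2 : ℝ) + 1)) κ ∧ t ≤ ⌊((A : ℝ) + 1) * v n⌋₊} := by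
      ext t
      simp only [Set.mem_ofPred_eq]
      exact and_congr_right fun _ => (Nat.le_floor_iff (by linarith)).symm
    have hfl : 1 ≤ ⌊((A : ℝ) + 1) * v n⌋₊ := Nat.le_floor (by exact_mod_cast hA)
    rw [hset]
    refine ⟨(Set.finite_Iic ⌊((A : ℝ) + 1) * v n⌋₊).subset fun t ht => ht.2, ?_⟩
    refine (hC _ hfl).trans ?_
    have h1 : ((⌊((A : ℝ) + 1) * v n⌋₊ : ℕ) : ℝ) ≤ ((A : ℝ) + 1) * v n := Nat.floor_le (by linarith)
    calc C * ((⌊((A : ℝ) + 1) * v n⌋₊ : ℕ) : ℝ) ^ (1 - κ + η)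
        ≤ |C| * ((⌊((A : ℝ) + 1) * v n⌋₊ : ℕ) : ℝ) ^ (1 - κ + η) :=
          mul_le_mul_of_nonneg_right (le_abs_self C) (by positivity)
      _ ≤ |C| * (((A : ℝ) + 1) * v n) ^ (1 - κ + η) := by
          refine mul_le_mul_of_nonneg_left ?_ (abs_nonneg C)
          exact Real.rpow_le_rpow (by positivity) h1 (by linarith)
      _ = |C| * ((A : ℝ) + 1) ^ (1 - κ + η) * (v n) ^ (1 - κ + η) := by
          rw [Real.mul_rpow (by positivity) (by linarith)]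
          ring
  choose E hE1 hE2 using hall
  refine ⟨⋃ z, E z, ?_, fun α hα hαE k ε hε => ?_⟩
  · rw [dimH_iUnion]
    exact iSup_le hE1
  · obtain ⟨j, hj⟩ := exists_nat_one_div_lt hε
    obtain ⟨n0, hn0⟩ := hE2 (k, j) α hα (fun h => hαE (Set.mem_iUnion.2 ⟨_, h⟩))
    refine ⟨n0, fun ν hν n hn hw x hx => ?_⟩
    by_contra hcon
    rw [not_le] at hcon
    have hbad : n ∈ RBad (S k) (1 / ((j : ℝ) + 1)) κ := by
      refine ⟨hn, x, hx, lt_of_le_of_lt ?_ hcon⟩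
      exact mul_le_mul_of_nonneg_right hj.le ((mdl_nonneg _ _).trans (le_max_left _ _))
    have := hn0 ν hν n hbad
    rw [one_mul] at this
    linarith

theorem cls_rel (q : ℕ) [Fact q.Prime] (S : ℕ → ∀ p : ℕ, Set (ZMod p)) {κ σ : ℝ}
    (hκ0 : 0 ≤ κ) (hκ1 : κ ≤ 1) (hσ : 0 < σ) :
    ∃ E : Set ℤ_[q], dimH E ≤ ENNReal.ofReal ((1 - κ) / σ) ∧ ∀ α : ℤ_[q], α ∉ E →
      ∀ k : ℕ, ∀ ε : ℝ, 0 < ε → InClasses2 q σ α (fun n x =>
        |(cnt (S k) (n : ℤ) x : ℝ) - mdl (S k) x| ≤ ε * max (mdl (S k) x) ((n : ℝ) ^ κ)) := by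
  obtain ⟨E, hE1, hE2⟩ := Pool.Agent.H223.PS.padic_nat' q
    (fun z : ℕ => RBad (S (Nat.unpair z).1) (1 / (((Nat.unpair z).2 : ℝ) + 1)) κ) (s := 1 - κ) (by linarith)
    (fun z η hη => by
      obtain ⟨C, hC⟩ := few_rel (S (Nat.unpair z).1) (ε := 1 / (((Nat.unpair z).2 : ℝ) + 1)) (by positivity)
        hκ0 hκ1 hη
      exact ⟨C, fun X hX => ⟨(Set.finite_Iic X).subset fun t ht => ht.2, hC X hX⟩⟩) hσ
  refine ⟨E, hE1, fun α hα k ε hε => ?_⟩
  obtain ⟨j, hj⟩ := exists_nat_one_div_lt hε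
  obtain ⟨Y₀, hY₀⟩ := hE2 α hα (Nat.pair k j)
  refine ⟨Y₀, fun Y hY n hn hnY hw x hx => ?_⟩
  by_contra hcon
  rw [not_le] at hcon
  refine hY₀ Y hY n hnY hw ?_
  rw [Nat.unpair_pair]
  refine ⟨hn, x, hx, lt_of_le_of_lt ?_ hcon⟩
  exact mul_le_mul_of_nonneg_right hj.le ((mdl_nonneg _ _).trans (le_max_left _ _))

end Pool.Agent.V1176.LN
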