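import Pool.Agent.TH375.KL.Scales
import Pool.Agent.Y854.GM.WinV
import Pool.Agent.V1176.SQ.Pad

/-! The law of large numbers for local conditions at the primes `p ≤ x` (`TH375.KL.all_scales`, from the large sieve), for
ALL integers near the terms of a sequence, and for all integers in small residue classes: no exceptions are left for almost
all parameters. -/

set_option autoImplicit false

open Finset Filter Topology

namespace Pool.Agent.V1176.LN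

open Pool.Agent.TH375.KL (dev)

/-- the integers for which the law fails for some `x` -/
def Bad (G : ∀ p : ℕ, ZMod p → ℝ) (ε s : ℝ) : Set ℕ :=
  {t | 1 ≤ t ∧ ∃ x : ℕ, (t : ℝ) ^ (1 - s) ≤ x ∧ (x : ℝ) ≤ (t : ℝ) ^ s ∧
    ε * Nat.primeCounting x < |dev G x (t : ℤ)|}

theorem few {G : ∀ p : ℕ, ZMod p → ℝ} (hG : ∀ p a, |G p a| ≤ 1) {ε s η : ℝ} (hε : 0 < ε)
    (hs0 : 0 ≤ s) (hs1 : s < 1) (hη : 0 < η) :
    ∃ C : ℝ, ∀ X : ℕ, 1 ≤ X → ({t : ℕ | t ∈ Bad G ε s ∧ t ≤ X}.ncard : ℝ) ≤ C * (X : ℝ) ^ (s + η) := by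
  classical
  obtain ⟨C, hC, hall⟩ := Pool.Agent.TH375.KL.all_scales
  obtain ⟨C₁, hC₁, hcheb⟩ := Pool.Agent.TH375.KL.cheb
  obtain ⟨ε', hε'⟩ : ∃ ε', ε' = min ε 1 := ⟨_, rfl⟩
  have hε0 : 0 < ε' := by rw [hε']; exact lt_min hε one_pos
  have hε1 : ε' ≤ 1 := by rw [hε']; exact min_le_right _ _
  have hεε : ε' ≤ ε := by rw [hε']; exact min_le_left _ _
  obtain ⟨C₃, hC₃⟩ : ∃ C₃, C₃ = C / ε' ^ 3 * (2 * C₁ * (4 / η) + (4 / η) ^ 2) := ⟨_, rfl⟩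
  have hC₃0 : 0 < C₃ := by rw [hC₃]; positivity
  have hlim1 : ∀ᶠ X : ℕ in atTop, C₃ ≤ (X : ℝ) ^ (η / 2) :=
    ((tendsto_rpow_atTop (by positivity)).comp tendsto_natCast_atTop_atTop).eventually_ge_atTop _
  have hlim2 : ∀ᶠ X : ℕ in atTop, (2 : ℝ) ≤ ((X : ℝ) / 2) ^ (1 - s) :=
    ((tendsto_rpow_atTop (by linarith)).comp
      (tendsto_natCast_atTop_atTop.atTop_div_const (by norm_num))).eventually_ge_atTop _
  obtain ⟨X₀, hX₀⟩ := eventually_atTop.1 ((hlim1.and hlim2).and (eventually_ge_atTop 2))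
  refine Pool.Agent.V1176.SQ.dyad_count (by linarith) (Bad G ε s) (fun X t => t ∈ Bad G ε s ∧ X < 2 * t) X₀ ?_
    (fun X _ t ht _ h2 _ => ⟨ht, h2⟩)
  intro X hX
  obtain ⟨⟨h1, h2⟩, h3⟩ := hX₀ X hX
  have hX2 : (2 : ℝ) ≤ X := by exact_mod_cast h3
  have hXpos : (0 : ℝ) < X := by linarith
  obtain ⟨y, hy⟩ : ∃ y, y = ⌈((X : ℝ) / 2) ^ (1 - s)⌉₊ := ⟨_, rfl⟩
  obtain ⟨z, hz⟩ : ∃ z, z = ⌊(X : ℝ) ^ s⌋₊ := ⟨_, rfl⟩
  have hyle : ((X : ℝ) / 2) ^ (1 - s) ≤ y := by rw [hy]; exact Nat.le_ceil _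
  have hy2 : 2 ≤ y := by
    have : (2 : ℝ) ≤ y := h2.trans hyle
    exact_mod_cast this
  have hzle : (z : ℝ) ≤ (X : ℝ) ^ s := by
    rw [hz]
    exact Nat.floor_le (by positivity)
  have hmem : ∀ t : ℕ, 1 ≤ t → t ≤ X → t ∈ Bad G ε s → X < 2 * t →
      ∃ x : ℕ, y ≤ x ∧ x ≤ z ∧ ε' * Nat.primeCounting x < |dev G x (0 + (t : ℤ))| := by
    intro t ht1 htX hbad ht2
    obtain ⟨-, x, hx1, hx2, hx3⟩ := hbad
    have ht0 : (0 : ℝ) < t := by exact_mod_cast ht1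
    refine ⟨x, ?_, ?_, ?_⟩
    · rw [hy]
      apply Nat.ceil_le.2
      refine le_trans ?_ hx1
      refine Real.rpow_le_rpow (by positivity) ?_ (by linarith)
      have : (X : ℝ) < 2 * t := by exact_mod_cast ht2
      linarith
    · rw [hz]
      apply Nat.le_floor
      refine hx2.trans ?_
      exact Real.rpow_le_rpow ht0.le (by exact_mod_cast htX) hs0
    · rw [zero_add]
      refine lt_of_le_of_lt ?_ hx3
      exact mul_le_mul_of_nonneg_right hεε (Nat.cast_nonneg _)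
  have hXη : (0 : ℝ) < (X : ℝ) ^ (s + η) := by positivity
  rcases Nat.lt_or_ge z y with hzy | hyz
  · have : {t : ℕ | 1 ≤ t ∧ t ≤ X ∧ (t ∈ Bad G ε s ∧ X < 2 * t)} = ∅ := by
      rw [Set.eq_empty_iff_forall_notMem]
      rintro t ⟨ht1, ht2, ht3, ht4⟩
      obtain ⟨x, hx1, hx2, -⟩ := hmem t ht1 ht2 ht3 ht4
      omega
    rw [this, Set.ncard_empty, Nat.cast_zero]
    exact hXη.le
  · have key := hall G hG ε' hε0 hε1 0 X y z hy2 hyz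
    have hcard : ({t : ℕ | 1 ≤ t ∧ t ≤ X ∧ (t ∈ Bad G ε s ∧ X < 2 * t)}.ncard : ℝ) ≤
        (((Icc 1 X).filter fun n : ℕ => ∃ x, y ≤ x ∧ x ≤ z ∧
          ε' * Nat.primeCounting x < |dev G x (0 + (n : ℤ))|).card : ℝ) := by
      rw [← Set.ncard_coe_finset]
      refine Nat.cast_le.2 (Set.ncard_le_ncard ?_ (Finset.finite_toSet _))
      rintro t ⟨ht1, ht2, ht3, ht4⟩
      rw [Finset.mem_coe, mem_filter, mem_Icc]
      exact ⟨⟨ht1, ht2⟩, hmem t ht1 ht2 ht3 ht4⟩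
    refine hcard.trans (key.trans ?_)
    have hpy : (0 : ℝ) < Nat.primeCounting y := by exact_mod_cast Pool.Agent.TH375.KL.pi_pos hy2
    have hyR : (2 : ℝ) ≤ y := by exact_mod_cast hy2
    have hlX : 0 < Real.log X := Real.log_pos (by linarith)
    have hXs : (X : ℝ) ^ s ≤ X := by
      calc (X : ℝ) ^ s ≤ (X : ℝ) ^ (1 : ℝ) := Real.rpow_le_rpow_of_exponent_le (by linarith) hs1.le
        _ = X := Real.rpow_one _
    have hzX : (z : ℝ) ≤ X := hzle.trans hXs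
    have hyz' : (y : ℝ) ≤ z := by exact_mod_cast hyz
    have hly : Real.log y ≤ Real.log X := Real.log_le_log (by linarith) (hyz'.trans hzX)
    have hly0 : 0 ≤ Real.log y := Real.log_nonneg (by linarith)
    have hlz : Real.log z ≤ Real.log X := Real.log_le_log (by linarith) hzX
    have hlz0 : 0 ≤ Real.log z := Real.log_nonneg (by linarith)
    -- the logarithm
    have hlog : Real.log X ≤ 4 / η * (X : ℝ) ^ (η / 4) := by
      have := Real.log_le_rpow_div hXpos.le (show 0 < η / 4 by positivity)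
      refine this.trans (le_of_eq ?_)
      field_simp
    have hX4 : (1 : ℝ) ≤ (X : ℝ) ^ (η / 4) := Real.one_le_rpow (by linarith) (by positivity)
    have hX42 : (X : ℝ) ^ (η / 4) * (X : ℝ) ^ (η / 4) = (X : ℝ) ^ (η / 2) := by
      rw [← Real.rpow_add hXpos]
      congr 1
      ring
    -- the first term
    have ht1 : (X : ℝ) / Nat.primeCounting y ≤ (X : ℝ) ^ s * (2 * C₁ * Real.log X) := by
      rw [div_le_iff₀ hpy]
      have h4 := hcheb y hy2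
      have h5 : ((X : ℝ) / 2) ^ (1 - s) ≤ C₁ * (Nat.primeCounting y * Real.log X) := by
        refine hyle.trans (h4.trans ?_)
        gcongr
      have h6 : (X : ℝ) ^ s * ((X : ℝ) / 2) ^ (1 - s) * 2 ≥ X := by
        rw [Real.div_rpow hXpos.le (by norm_num)]
        have h7 : (2 : ℝ) ^ (1 - s) ≤ 2 := by
          calc (2 : ℝ) ^ (1 - s) ≤ (2 : ℝ) ^ (1 : ℝ) :=
                Real.rpow_le_rpow_of_exponent_le (by norm_num) (by linarith)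
            _ = 2 := Real.rpow_one _
        have h8 : (X : ℝ) ^ s * (X : ℝ) ^ (1 - s) = X := by
          rw [← Real.rpow_add hXpos]
          simp
        have h9 : (0 : ℝ) < (2 : ℝ) ^ (1 - s) := by positivity
        rw [← mul_div_assoc, h8, ge_iff_le, div_mul_eq_mul_div, le_div_iff₀ h9]
        nlinarith
      have h7 : (X : ℝ) ^ s * ((X : ℝ) / 2) ^ (1 - s) ≤
          (X : ℝ) ^ s * (C₁ * (Nat.primeCounting y * Real.log X)) :=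
        mul_le_mul_of_nonneg_left h5 (by positivity)
      nlinarith
    have ht2 : (z : ℝ) * Real.log z ^ 2 ≤ (X : ℝ) ^ s * Real.log X ^ 2 := by
      gcongr
    have ht3 : 2 * C₁ * Real.log X + Real.log X ^ 2 ≤
        (2 * C₁ * (4 / η) + (4 / η) ^ 2) * (X : ℝ) ^ (η / 2) := by
      have h4 : 2 * C₁ * Real.log X ≤ 2 * C₁ * (4 / η) * (X : ℝ) ^ (η / 2) := by
        rw [mul_assoc (2 * C₁)]
        refine mul_le_mul_of_nonneg_left ?_ (by positivity)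
        refine hlog.trans (mul_le_mul_of_nonneg_left ?_ (by positivity))
        rw [← hX42]
        nlinarith
      have h5 : Real.log X ^ 2 ≤ (4 / η) ^ 2 * (X : ℝ) ^ (η / 2) := by
        calc Real.log X ^ 2 ≤ (4 / η * (X : ℝ) ^ (η / 4)) ^ 2 := pow_le_pow_left₀ hlX.le hlog 2
          _ = (4 / η) ^ 2 * (X : ℝ) ^ (η / 2) := by
              rw [← hX42]
              ring
      linarith
    calc C / ε' ^ 3 * ((X : ℝ) / Nat.primeCounting y + z * Real.log z ^ 2)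
        ≤ C / ε' ^ 3 * ((X : ℝ) ^ s * (2 * C₁ * Real.log X) + (X : ℝ) ^ s * Real.log X ^ 2) := by
          refine mul_le_mul_of_nonneg_left (add_le_add ht1 ht2) (by positivity)
      _ = C / ε' ^ 3 * ((X : ℝ) ^ s * (2 * C₁ * Real.log X + Real.log X ^ 2)) := by ring
      _ ≤ C / ε' ^ 3 * ((X : ℝ) ^ s * ((2 * C₁ * (4 / η) + (4 / η) ^ 2) * (X : ℝ) ^ (η / 2))) := by
          refine mul_le_mul_of_nonneg_left (mul_le_mul_of_nonneg_left ht3 (by positivity)) (by positivity)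
      _ = C₃ * ((X : ℝ) ^ s * (X : ℝ) ^ (η / 2)) := by rw [hC₃]; ring
      _ ≤ (X : ℝ) ^ (η / 2) * ((X : ℝ) ^ s * (X : ℝ) ^ (η / 2)) :=
          mul_le_mul_of_nonneg_right h1 (by positivity)
      _ = (X : ℝ) ^ (s + η) := by
          rw [← Real.rpow_add hXpos, ← Real.rpow_add hXpos]
          congr 1
          ring

/-- **Windows.** -/
theorem win {G : ℕ → ∀ p : ℕ, ZMod p → ℝ} (hG : ∀ k p a, |G k p a| ≤ 1) {v : ℕ → ℝ} {s τ ϑ : ℝ}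
    (hpos : ∀ n, 1 ≤ v n) (hτ : 0 ≤ τ) (hv : ∀ t : ℝ, τ < t → Summable (fun n : ℕ => (v n) ^ (-t)))
    (hs0 : 0 ≤ s) (hs1 : s < 1) (hϑ : ϑ < 1) :
    ∃ E : Set ℝ, dimH E ≤ ENNReal.ofReal ((s + τ) / (1 - ϑ)) ∧ ∀ α : ℝ, 0 < α → α ∉ E →
      ∀ k : ℕ, ∀ ε : ℝ, 0 < ε → ∃ ν₀ : ℕ, ∀ ν : ℕ, ν₀ ≤ ν → ∀ n : ℕ, 1 ≤ n →
        |(n : ℝ) - α * v ν| ≤ (v ν) ^ ϑ → ∀ x : ℕ, (n : ℝ) ^ (1 - s) ≤ x → (x : ℝ) ≤ (n : ℝ) ^ s →
          |dev (G k) x (n : ℤ)| ≤ ε * Nat.primeCounting x := by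
  have hall : ∀ z : ℕ × ℕ, ∃ E : Set ℝ, dimH E ≤ ENNReal.ofReal ((s + τ) / (1 - ϑ)) ∧ ∀ α : ℝ, 0 < α → α ∉ E →
      ∃ n0 : ℕ, ∀ n : ℕ, n0 ≤ n → ∀ t ∈ Bad (G z.1) (1 / ((z.2 : ℝ) + 1)) s,
        1 * (v n) ^ ϑ < |(t : ℝ) - α * v n| := by
    intro z
    refine Pool.Agent.Y854.GM.windowsV (fun _ => Bad (G z.1) (1 / ((z.2 : ℝ) + 1)) s) (fun _ (t : ℕ) => (t : ℝ)) 1
      hpos hτ hv hs0 hϑ ?_
    intro A η hη
    obtain ⟨C, hC⟩ := few (hG z.1) (ε := 1 / ((z.2 : ℝ) + 1)) (by positivity) hs0 hs1 hη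
    refine ⟨|C| * ((A : ℝ) + 1) ^ (s + η), 0, fun n _ => ?_⟩
    have hv1 : 1 ≤ v n := hpos n
    have hA : (1 : ℝ) ≤ ((A : ℝ) + 1) * v n := by nlinarith [(Nat.cast_nonneg A : (0 : ℝ) ≤ A)]
    have hset : {t : ℕ | t ∈ Bad (G z.1) (1 / ((z.2 : ℝ) + 1)) s ∧ (t : ℝ) ≤ ((A : ℝ) + 1) * v n} =
        {t : ℕ | t ∈ Bad (G z.1) (1 / ((z.2 : ℝ) + 1)) s ∧ t ≤ ⌊((A : ℝ) + 1) * v n⌋₊} := by
      ext t
      simp only [Set.mem_ofPred_eq]
      exact and_congr_right fun _ => (Nat.le_floor_iff (by linarith)).symm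
    have hfl : 1 ≤ ⌊((A : ℝ) + 1) * v n⌋₊ := Nat.le_floor (by exact_mod_cast hA)
    rw [hset]
    refine ⟨(Set.finite_Iic ⌊((A : ℝ) + 1) * v n⌋₊).subset fun t ht => ht.2, ?_⟩
    refine (hC _ hfl).trans ?_
    have h1 : ((⌊((A : ℝ) + 1) * v n⌋₊ : ℕ) : ℝ) ≤ ((A : ℝ) + 1) * v n := Nat.floor_le (by linarith)
    calc C * ((⌊((A : ℝ) + 1) * v n⌋₊ : ℕ) : ℝ) ^ (s + η)
        ≤ |C| * ((⌊((A : ℝ) + 1) * v n⌋₊ : ℕ) : ℝ) ^ (s + η) :=
          mul_le_mul_of_nonneg_right (le_abs_self C) (by positivity)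
      _ ≤ |C| * (((A : ℝ) + 1) * v n) ^ (s + η) := by
          refine mul_le_mul_of_nonneg_left ?_ (abs_nonneg C)
          exact Real.rpow_le_rpow (by positivity) h1 (by linarith)
      _ = |C| * ((A : ℝ) + 1) ^ (s + η) * (v n) ^ (s + η) := by
          rw [Real.mul_rpow (by positivity) (by linarith)]
          ring
  choose E hE1 hE2 using hall
  refine ⟨⋃ z, E z, ?_, fun α hα hαE k ε hε => ?_⟩
  · rw [dimH_iUnion]
    exact iSup_le hE1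
  · obtain ⟨j, hj⟩ := exists_nat_one_div_lt hε
    obtain ⟨n0, hn0⟩ := hE2 (k, j) α hα (fun h => hαE (Set.mem_iUnion.2 ⟨_, h⟩))
    refine ⟨n0, fun ν hν n hn hw x hx1 hx2 => ?_⟩
    by_contra hcon
    rw [not_le] at hcon
    have hbad : n ∈ Bad (G k) (1 / ((j : ℝ) + 1)) s := by
      refine ⟨hn, x, hx1, hx2, lt_of_le_of_lt ?_ hcon⟩
      exact mul_le_mul_of_nonneg_right hj.le (Nat.cast_nonneg _)
    have := hn0 ν hν n hbad
    rw [one_mul] at this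
    linarith

/-- **Residue classes.** -/
theorem cls (q : ℕ) [Fact q.Prime] {G : ℕ → ∀ p : ℕ, ZMod p → ℝ} (hG : ∀ k p a, |G k p a| ≤ 1)
    {s σ : ℝ} (hs0 : 0 ≤ s) (hs1 : s < 1) (hσ : 0 < σ) :
    ∃ E : Set ℤ_[q], dimH E ≤ ENNReal.ofReal (s / σ) ∧ ∀ α : ℤ_[q], α ∉ E →
      ∀ k : ℕ, ∀ ε : ℝ, 0 < ε → ∃ Y₀ : ℝ, ∀ Y : ℝ, Y₀ ≤ Y → ∀ n : ℕ, 1 ≤ n → (n : ℝ) ≤ Y →
        ‖(n : ℤ_[q]) - α‖ ≤ Y ^ (-σ) → ∀ x : ℕ, (n : ℝ) ^ (1 - s) ≤ x → (x : ℝ) ≤ (n : ℝ) ^ s →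
          |dev (G k) x (n : ℤ)| ≤ ε * Nat.primeCounting x := by
  obtain ⟨E, hE1, hE2⟩ := Pool.Agent.H223.PS.padic_nat' q
    (fun z : ℕ => Bad (G (Nat.unpair z).1) (1 / (((Nat.unpair z).2 : ℝ) + 1)) s) hs0 (fun z η hη => by
      obtain ⟨C, hC⟩ := few (hG (Nat.unpair z).1) (ε := 1 / (((Nat.unpair z).2 : ℝ) + 1)) (by positivity)
        hs0 hs1 hη
      exact ⟨C, fun X hX => ⟨(Set.finite_Iic X).subset fun t ht => ht.2, hC X hX⟩⟩) hσ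
  refine ⟨E, hE1, fun α hα k ε hε => ?_⟩
  obtain ⟨j, hj⟩ := exists_nat_one_div_lt hε
  obtain ⟨Y₀, hY₀⟩ := hE2 α hα (Nat.pair k j)
  refine ⟨Y₀, fun Y hY n hn hnY hw x hx1 hx2 => ?_⟩
  by_contra hcon
  rw [not_le] at hcon
  refine hY₀ Y hY n hnY hw ?_
  rw [Nat.unpair_pair]
  refine ⟨hn, x, hx1, hx2, lt_of_le_of_lt ?_ hcon⟩
  exact mul_le_mul_of_nonneg_right hj.le (Nat.cast_nonneg _)

end Pool.Agent.V1176.LN
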